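import Pool.Agent.H578.CM.D.E5f
import Pool.Agent.H578.CM.D.E7f
import Pool.Agent.H578.CM.D.E13f
import Pool.Agent.H578.CM.D.E17f

set_option autoImplicit false

/-!
# `Z_p(m)` modulo `p²` at `m = 320, 896, 10400, 39200`
-/

open Finset

namespace Pool.Agent.Results.MP_e6719f_nt.FranelFour

/-- the Franel numbers -/
def f (n : ℕ) : ℕ := ∑ k ∈ range (n + 1), (n.choose k) ^ 3

/-- the sum `Z_p(m) = ∑_{n<p} C(2n,n) f_n m^{-n}` -/
def Z (p : ℕ) (m : ℤ) : ℚ := ∑ n ∈ range p, ((2 * n).choose n : ℚ) * (f n : ℚ) / (m : ℚ) ^ n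

/-- congruence modulo `p²` of rational numbers: `(a - b) / p²` has denominator prime to `p` -/
def Cong (p : ℕ) (a b : ℚ) : Prop := p.Coprime ((a - b) / (p : ℚ) ^ 2).den

/-- the arguments -/
def arg (b : ℕ) : ℤ := if b = 5 then 320 else if b = 7 then 896 else if b = 13 then 10400 else 39200

theorem tr {p : ℕ} [hp : Fact p.Prime] {m : ℤ} (hM : ¬ (p : ℤ) ∣ m) {wi : Pool.Agent.Q267.CDE.R p}
    (hwi : (m : Pool.Agent.Q267.CDE.R p) * wi = 1) {E : ℤ}
    (hE : Pool.Agent.H547.AA p wi = ((E : ℤ) : Pool.Agent.Q267.CDE.R p)) : Cong p (Z p m) (E : ℚ) := by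
  have := Pool.Agent.H547.trA hM hwi E hE
  unfold Cong
  rw [Nat.Prime.coprime_iff_not_dvd hp.out]
  have e : Z p m = ∑ k ∈ range p, ((k.centralBinom : ℚ) * (Pool.Agent.H547.fr k : ℚ)) /
      ((m : ℤ) : ℚ) ^ k := by
    unfold Z
    refine sum_congr rfl fun k _ => ?_
    rw [Nat.centralBinom]
    rfl
  rw [e]
  exact this

/-- the five congruences for one `b` -/
def Five (p : ℕ) [Fact p.Prime] (b : ℕ) (m : ℤ) : Prop :=
  (∀ x y : ℤ, (p : ℤ) = x ^ 2 + 6 * b * y ^ 2 → Cong p (Z p m) (4 * (x : ℚ) ^ 2 - 2 * p)) ∧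
  (∀ x y : ℤ, (p : ℤ) = 2 * x ^ 2 + 3 * b * y ^ 2 → Cong p (Z p m) (8 * (x : ℚ) ^ 2 - 2 * p)) ∧
  (∀ x y : ℤ, (p : ℤ) = 3 * x ^ 2 + 2 * b * y ^ 2 → Cong p (Z p m) (2 * p - 12 * (x : ℚ) ^ 2)) ∧
  (∀ x y : ℤ, (p : ℤ) = 6 * x ^ 2 + b * y ^ 2 → Cong p (Z p m) (2 * p - 24 * (x : ℚ) ^ 2)) ∧
  (legendreSym p (-(6 * b)) = -1 → Cong p (Z p m) 0)

theorem case5 (p : ℕ) [hp : Fact p.Prime] (h5 : 5 ≤ p) (hpb : p ≠ 5) (hpf : ¬ (p : ℤ) ∣ 320) :
    Five p 5 320 := by
  obtain ⟨wi, hwi⟩ := Pool.Agent.H546.inv_exists hpf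
  obtain ⟨h1, h2, h3, h6, h0⟩ := Pool.Agent.H578.CM.E5.main (p := p) (by omega) hpb hpf hwi
  refine ⟨fun x y h => ?_, fun x y h => ?_, fun x y h => ?_, fun x y h => ?_, fun h => ?_⟩
  · have := tr hpf hwi (h1 x y (by exact_mod_cast h))
    push_cast at this
    exact this
  · have := tr hpf hwi (h2 x y (by exact_mod_cast h))
    push_cast at this
    exact this
  · have := tr hpf hwi (h3 x y (by exact_mod_cast h))
    push_cast at this
    exact this
  · have := tr hpf hwi (h6 x y (by exact_mod_cast h))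
    push_cast at this
    exact this
  · have := tr hpf hwi (h0 (by exact_mod_cast h))
    push_cast at this
    exact this

theorem case7 (p : ℕ) [hp : Fact p.Prime] (h5 : 5 ≤ p) (hpb : p ≠ 7) (hpf : ¬ (p : ℤ) ∣ 896) :
    Five p 7 896 := by
  obtain ⟨wi, hwi⟩ := Pool.Agent.H546.inv_exists hpf
  obtain ⟨h1, h2, h3, h6, h0⟩ := Pool.Agent.H578.CM.E7.main (p := p) (by omega) hpb hpf hwi
  refine ⟨fun x y h => ?_, fun x y h => ?_, fun x y h => ?_, fun x y h => ?_, fun h => ?_⟩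
  · have := tr hpf hwi (h1 x y (by exact_mod_cast h))
    push_cast at this
    exact this
  · have := tr hpf hwi (h2 x y (by exact_mod_cast h))
    push_cast at this
    exact this
  · have := tr hpf hwi (h3 x y (by exact_mod_cast h))
    push_cast at this
    exact this
  · have := tr hpf hwi (h6 x y (by exact_mod_cast h))
    push_cast at this
    exact this
  · have := tr hpf hwi (h0 (by exact_mod_cast h))
    push_cast at this
    exact this

theorem case13 (p : ℕ) [hp : Fact p.Prime] (h5 : 5 ≤ p) (hpb : p ≠ 13) (hpf : ¬ (p : ℤ) ∣ 10400) :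
    Five p 13 10400 := by
  obtain ⟨wi, hwi⟩ := Pool.Agent.H546.inv_exists hpf
  obtain ⟨h1, h2, h3, h6, h0⟩ := Pool.Agent.H578.CM.E13.main (p := p) (by omega) hpb hpf hwi
  refine ⟨fun x y h => ?_, fun x y h => ?_, fun x y h => ?_, fun x y h => ?_, fun h => ?_⟩
  · have := tr hpf hwi (h1 x y (by exact_mod_cast h))
    push_cast at this
    exact this
  · have := tr hpf hwi (h2 x y (by exact_mod_cast h))
    push_cast at this
    exact this
  · have := tr hpf hwi (h3 x y (by exact_mod_cast h))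
    push_cast at this
    exact this
  · have := tr hpf hwi (h6 x y (by exact_mod_cast h))
    push_cast at this
    exact this
  · have := tr hpf hwi (h0 (by exact_mod_cast h))
    push_cast at this
    exact this

theorem case17 (p : ℕ) [hp : Fact p.Prime] (h5 : 5 ≤ p) (hpb : p ≠ 17) (hpf : ¬ (p : ℤ) ∣ 39200) :
    Five p 17 39200 := by
  obtain ⟨wi, hwi⟩ := Pool.Agent.H546.inv_exists hpf
  obtain ⟨h1, h2, h3, h6, h0⟩ := Pool.Agent.H578.CM.E17.main (p := p) (by omega) hpb hpf hwi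
  refine ⟨fun x y h => ?_, fun x y h => ?_, fun x y h => ?_, fun x y h => ?_, fun h => ?_⟩
  · have := tr hpf hwi (h1 x y (by exact_mod_cast h))
    push_cast at this
    exact this
  · have := tr hpf hwi (h2 x y (by exact_mod_cast h))
    push_cast at this
    exact this
  · have := tr hpf hwi (h3 x y (by exact_mod_cast h))
    push_cast at this
    exact this
  · have := tr hpf hwi (h6 x y (by exact_mod_cast h))
    push_cast at this
    exact this
  · have := tr hpf hwi (h0 (by exact_mod_cast h))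
    push_cast at this
    exact this

/-- **The conjectured congruences for `b = 5, 7, 13, 17`.** -/
theorem result (b : ℕ) (hb : b = 5 ∨ b = 7 ∨ b = 13 ∨ b = 17) (p : ℕ) [hp : Fact p.Prime] (h5 : 5 ≤ p)
    (hpb : p ≠ b) (hpf : ¬ (p : ℤ) ∣ arg b) :
    (∀ x y : ℤ, (p : ℤ) = x ^ 2 + 6 * b * y ^ 2 → Cong p (Z p (arg b)) (4 * (x : ℚ) ^ 2 - 2 * p)) ∧
    (∀ x y : ℤ, (p : ℤ) = 2 * x ^ 2 + 3 * b * y ^ 2 → Cong p (Z p (arg b)) (8 * (x : ℚ) ^ 2 - 2 * p)) ∧
    (∀ x y : ℤ, (p : ℤ) = 3 * x ^ 2 + 2 * b * y ^ 2 → Cong p (Z p (arg b)) (2 * p - 12 * (x : ℚ) ^ 2)) ∧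
    (∀ x y : ℤ, (p : ℤ) = 6 * x ^ 2 + b * y ^ 2 → Cong p (Z p (arg b)) (2 * p - 24 * (x : ℚ) ^ 2)) ∧
    (legendreSym p (-(6 * b)) = -1 → Cong p (Z p (arg b)) 0) := by
  rcases hb with rfl | rfl | rfl | rfl
  · exact case5 p h5 hpb hpf
  · exact case7 p h5 hpb hpf
  · exact case13 p h5 hpb hpf
  · exact case17 p h5 hpb hpf

end Pool.Agent.Results.MP_e6719f_nt.FranelFour
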